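import Pool.Agent.W559.Et.Stm5

/-!
# Project ET, part POW: the affine atlas of a power of a smooth projective variety
-/

set_option autoImplicit false
set_option linter.unusedSectionVars false

open MvPolynomial AlgebraicGeometry CategoryTheory TensorProduct

universe u v w

namespace Pool.Agent.W924.ET

open Pool.Agent.W559.Mg Pool.Agent.W559.Et Pool.Agent.H920R2

section norm

variable {k L : Type u} [Field k] [Field L] [Algebra k L]

/-- The norm of an element. -/
theorem nrm (σ : L →ₐ[k] L) {n : ℕ} (hn : 0 < n) (hσ : ∀ x, σ^[n] x = x) (B : Subalgebra k L)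
    (hB : ∀ x ∈ B, σ x ∈ B) {b : L} (hb : b ∈ B) (hb0 : b ≠ 0) :
    ∃ c ∈ B, b * c ≠ 0 ∧ σ (b * c) = b * c ∧
      ∀ h : L →ₐ[k] L, (∀ x, σ (h x) = h (σ x)) → h b = b → h (b * c) = b * c := by
  obtain ⟨m, rfl⟩ := Nat.exists_eq_succ_of_ne_zero hn.ne'
  have hP : ∏ i ∈ Finset.range (m + 1), σ^[i] b = b * ∏ i ∈ Finset.range m, σ^[i + 1] b := by
    rw [Finset.prod_range_succ', mul_comm]
    rfl
  have hmem : ∀ i, σ^[i] b ∈ B := by
    intro i
    induction i with
    | zero => exact hb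
    | succ i ih => rw [Function.iterate_succ_apply']; exact hB _ ih
  have hne : ∀ i, σ^[i] b ≠ 0 := by
    intro i
    induction i with
    | zero => exact hb0
    | succ i ih => rw [Function.iterate_succ_apply']; exact (map_ne_zero σ).2 ih
  refine ⟨∏ i ∈ Finset.range m, σ^[i + 1] b, Subalgebra.prod_mem _ fun i _ => hmem _, ?_, ?_, ?_⟩
  · exact mul_ne_zero hb0 (Finset.prod_ne_zero_iff.2 fun i _ => hne _)
  · rw [← hP, map_prod, hP]
    have h1 : ∀ i ∈ Finset.range (m + 1), σ (σ^[i] b) = σ^[i + 1] b := fun i _ =>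
      (Function.iterate_succ_apply' _ _ _).symm
    rw [Finset.prod_congr rfl h1, Finset.prod_range_succ]
    have h2 : σ^[m + 1] b = b := hσ b
    rw [h2, mul_comm]
  · intro h hc hb'
    rw [← hP, map_prod]
    have h1 : ∀ i : ℕ, h (σ^[i] b) = σ^[i] b := by
      intro i
      induction i with
      | zero => exact hb'
      | succ i ih => rw [Function.iterate_succ_apply', ← hc, ih]
    exact Finset.prod_congr rfl fun i _ => h1 i

/-- Fractions of fixed elements. -/
theorem frac {γ h : L →ₐ[k] L} {p M : ℕ} {ω : k} (hG : GD γ h p M ω) (B : Subalgebra k L)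
    (hg : ∀ x ∈ B, γ x ∈ B) (hh : ∀ x ∈ B, h x ∈ B)
    (hfr : ∀ x, ∃ a ∈ B, ∃ b ∈ B, b ≠ 0 ∧ x = a / b) {x : L} (hx : γ x = x ∧ h x = x) :
    ∃ y ∈ {x | x ∈ B ∧ γ x = x ∧ h x = x}, ∃ y' ∈ {x | x ∈ B ∧ γ x = x ∧ h x = x},
      y' ≠ 0 ∧ x = y / y' := by
  obtain ⟨a, ha, b, hb, hb0, rfl⟩ := hfr x
  obtain ⟨c, hc, hc0, hc1, -⟩ := nrm h hG.M0 hG.hM B hh hb hb0
  obtain ⟨d, hd, hd0, hd1, hd2⟩ := nrm γ (Nat.mul_pos hG.pp.pos hG.pp.pos) hG.g B hg
    (B.mul_mem hb hc) hc0
  have h3 : h (b * c * d) = b * c * d := hd2 h hG.c hc1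
  have hy' : b * c * d ∈ {x | x ∈ B ∧ γ x = x ∧ h x = x} :=
    ⟨B.mul_mem (B.mul_mem hb hc) hd, hd1, h3⟩
  have hy : a / b * (b * c * d) = a * c * d := by
    field_simp
  refine ⟨a / b * (b * c * d), ⟨?_, ?_, ?_⟩, b * c * d, hy', hd0, ?_⟩
  · rw [hy]
    exact B.mul_mem (B.mul_mem ha hc) hd
  · rw [map_mul, hx.1, hd1]
  · rw [map_mul, hx.2, h3]
  · rw [mul_div_assoc, div_self hd0, mul_one]

end norm

section main

variable {k K L : Type u} [Field k] [Field K] [Algebra k K] [Field L] [Algebra k L] {n : ℕ}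
  (e : Fin n → K →ₐ[k] L)

theorem TT_stable' (τ : L →ₐ[k] L) (π : Equiv.Perm (Fin n)) (hτ : ∀ i x, τ (e i x) = e (π i) x)
    (A : Subalgebra k K) : ∀ c ∈ TT e (fun _ => A), τ c ∈ TT e (fun _ => A) := by
  have h1 : TT e (fun _ => A) ≤ (TT e (fun _ => A)).comap τ := by
    refine TT_le e _ _ fun i x hx => ?_
    change τ (e i x) ∈ TT e (fun _ => A)
    rw [hτ]
    exact e_mem_TT e (fun _ => A) (π i) hx
  exact fun c hc => h1 hc

theorem prod_fix (τ : L →ₐ[k] L) (π : Equiv.Perm (Fin n)) (hτ : ∀ i x, τ (e i x) = e (π i) x)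
    (x : K) : τ (∏ i, e i x) = ∏ i, e i x := by
  rw [map_prod, Finset.prod_congr rfl fun i _ => hτ i x]
  exact Equiv.prod_comp π fun i => e i x

theorem pow_perm (τ : L →ₐ[k] L) (π : Equiv.Perm (Fin n)) (hτ : ∀ i x, τ (e i x) = e (π i) x)
    (r : ℕ) : ∀ i x, (τ ^ r) (e i x) = e ((π ^ r) i) x := by
  induction r with
  | zero => intro i x; rfl
  | succ r ih =>
    intro i x
    rw [pow_succ', pow_succ', AlgHom.mul_apply, ih, hτ, Equiv.Perm.mul_apply]

end main

theorem POW (hPerm : PermStm.{u}) : PowStm.{u} := by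
  intro k K L _ _ _ _ _ m n z hz hsmz hgenz e g hg hginj hfr γ h π π' hγ hh p M ω hG Kf hKf
  classical
  obtain ⟨d, Φ, hd, hfin, hΦ, hcov⟩ := exists_forms z hz k n
  let Φ' : Set K := Φ ∩ {F | F ≠ 0}
  have hfin' : Finite Φ' := (hfin.subset Set.inter_subset_left)
  obtain ⟨N, ⟨ε⟩⟩ := Finite.exists_equiv_fin Φ'
  let F : Fin N → K := fun a => (ε.symm a : Φ')
  have hF : ∀ a, F a ∈ FS k z d := fun a => hΦ _ (ε.symm a).2.1
  have hF0 : ∀ a, F a ≠ 0 := fun a => (ε.symm a).2.2
  let C : Fin N → Subalgebra k L := fun a => TT e fun _ => AF k z d (F a)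
  have hCγ : ∀ a, ∀ c ∈ C a, γ c ∈ C a := fun a => TT_stable' e γ π hγ _
  have hCh : ∀ a, ∀ c ∈ C a, h c ∈ C a := fun a => TT_stable' e h π' hh _
  have hfrC : ∀ a x, ∃ b ∈ C a, ∃ b' ∈ C a, b' ≠ 0 ∧ x = b / b' := by
    intro a x
    obtain ⟨b, b', hb', rfl⟩ := TT_frac e hg hfr _ (AF_frac hz hgenz hd (hF0 a)) x
    exact ⟨b, b.2, b', b'.2, hb', rfl⟩
  have hz0 : z 0 ^ d ≠ 0 := pow_ne_zero _ (hz 0)
  let H : Fin N → L := fun a => ∏ i, e i (F a / z 0 ^ d)
  have hH0 : ∀ a, H a ≠ 0 := fun a => Finset.prod_ne_zero_iff.2 fun i _ =>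
    (map_ne_zero (e i)).2 (div_ne_zero (hF0 a) hz0)
  have hrat : ∀ a b, H b / H a = ∏ i, e i (F b / F a) := by
    intro a b
    refine (Finset.prod_div_distrib _ _).symm.trans ?_
    refine Finset.prod_congr rfl fun i _ => ?_
    rw [← map_div₀]
    congr 1
    have := hF0 a
    field_simp
  have hmem : ∀ a b, ∏ i, e i (F b / F a) ∈ C a := fun a b =>
    Subalgebra.prod_mem _ fun i _ => e_mem_TT e (fun _ => AF k z d (F a)) i
      (FS_div_mem z (hF b))
  refine ⟨N, fun a => {x | x ∈ C a ∧ γ x = x ∧ h x = x}, ?_, fun t => C t.down,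
    fun t => H t.down, ?_, ?_, ?_, ?_⟩
  · intro a x hx
    exact frac hG (C a) (hCγ a) (hCh a) (hfrC a) ((hKf x).1 hx)
  · exact
    { H0 := fun t => hH0 t.down
      Hg := fun t => prod_fix e γ π hγ _
      Hh := fun t => prod_fix e h π' hh _
      g := fun t => hCγ t.down
      st := fun t => hCh t.down
      fr := fun t => hfrC t.down
      rt := fun t t' => by
        rw [hrat]
        exact hmem _ _
      gl := fun t t' x hx => by
        have h1 : C t'.down ≤ TT e fun _ => locL (AF k z d (F t.down)) (F t'.down / F t.down)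
            (FS_div_mem z (hF t'.down)) :=
          TT_mono e fun _ => AF_gl z (hF t'.down) (hF0 t'.down)
        have h2 := h1 hx
        rw [← locL_TT e (fun _ => AF k z d (F t.down)) (fun _ => F t'.down / F t.down)
          (fun _ => FS_div_mem z (hF t'.down))
          (fun _ => div_ne_zero (hF0 t'.down) (hF0 t.down)) (hmem t.down t'.down)] at h2
        rw [hrat]
        exact h2
      cv := by
        intro V hV
        let V' : Fin (n + 1) → ValuationSubring K := fun i =>
          if h : (i : ℕ) < n then V.comap (e ⟨i, h⟩ : K →+* L) else ⊤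
        have hV' : ∀ i (c : k), algebraMap k K c ∈ V' i := by
          intro i c
          by_cases h : (i : ℕ) < n
          · simp only [V', dif_pos h]
            change e ⟨i, h⟩ (algebraMap k K c) ∈ V
            rw [AlgHom.commutes]
            exact hV c
          · simp only [V', dif_neg h]
            trivial
        obtain ⟨F₀, hF₀, hgood⟩ := hcov V' hV'
        have hF₀0 : F₀ ≠ 0 := (hgood (Fin.last n)).ne_zero z hz
        refine ⟨⟨ε ⟨F₀, hF₀, hF₀0⟩⟩, ?_⟩
        have hFa : F (ε ⟨F₀, hF₀, hF₀0⟩) = F₀ := by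
          change ((ε.symm (ε ⟨F₀, hF₀, hF₀0⟩) : Φ') : K) = F₀
          rw [Equiv.symm_apply_apply]
        let S : Subalgebra k L :=
          { carrier := {x | x ∈ V}
            mul_mem' := fun ha hb => V.mul_mem _ _ ha hb
            add_mem' := fun ha hb => V.add_mem _ _ ha hb
            algebraMap_mem' := hV }
        have hle : C (ε ⟨F₀, hF₀, hF₀0⟩) ≤ S := by
          refine TT_le e _ _ ?_
          intro i x hx
          rw [hFa] at hx
          have h1 := good_AF z hz (V' i.castSucc) (hV' _) (hgood i.castSucc) x hx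
          have h2 : V' i.castSucc = V.comap (e i : K →+* L) := by
            have : ((i.castSucc : Fin (n + 1)) : ℕ) < n := i.2
            simp only [V', dif_pos this]
            rfl
          rw [h2] at h1
          exact h1
        intro b hb
        exact hle hb
      aa := fun t => ⟨t.down, fun x hx => hx⟩
      kf := hKf }
  · intro t
    exact smooth_TT e hg hginj _ fun _ => smooth_AF z hz hsmz hd (hF t.down) (hF0 t.down)
  · intro t
    exact hPerm k K L n e g hg hginj γ π hγ _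
      (smooth_AF z hz hsmz hd (hF t.down) (hF0 t.down))
  · intro t
    exact hPerm k K L n e g hg hginj (γ ^ p) (π ^ p) (pow_perm e γ π hγ p) _
      (smooth_AF z hz hsmz hd (hF t.down) (hF0 t.down))

end Pool.Agent.W924.ET
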